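import Pool.Agent.Helper38.XF.Tools

/-!
# Swarm XF (helper38), part CONT (helper85)
-/

set_option autoImplicit false

namespace Pool.Agent.Helper85.XF.CONT

open Pool.Agent.Helper38.XF

variable {L : Type} [Field L] {O : ValuationSubring L}

theorem exists_dom (O : ValuationSubring L) (e x : L) (he : e ≠ 0) :
    ∃ d : L, d ≠ 0 ∧ ∃ z ∈ O, x * d = e * z := by
  rcases O.mem_or_inv_mem x with h | h
  · exact ⟨e, he, x, h, mul_comm _ _⟩
  · rcases eq_or_ne x 0 with rfl | hx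
    · exact ⟨1, one_ne_zero, 0, O.zero_mem, by simp⟩
    · exact ⟨e * x⁻¹, mul_ne_zero he (inv_ne_zero hx), 1, O.one_mem, by field_simp⟩

/-- a common multiple of finitely many elements -/
theorem exists_mult {ι : Type} (O : ValuationSubring L) (s : Finset ι) (δ : ι → L)
    (h : ∀ i ∈ s, δ i ≠ 0) : ∃ d : L, d ≠ 0 ∧ ∀ i ∈ s, ∃ z ∈ O, d = δ i * z := by
  obtain ⟨d, hd, h1⟩ := exists_common (O := O) s δ h
  refine ⟨d, hd, fun i hi => ?_⟩
  obtain ⟨z, hz, h2⟩ := h1 i hi d 0 ⟨1, O.one_mem, by simp⟩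
  exact ⟨z, hz, by simpa using h2⟩

/-- continuity of the multiplication -/
theorem near_mul (O : ValuationSubring L) (e a b : L) (he : e ≠ 0) :
    ∃ d : L, d ≠ 0 ∧ ∀ a' b', Near O d a' a → Near O d b' b → Near O e (a' * b') (a * b) := by
  obtain ⟨d1, hd1, z1, hz1, e1⟩ := exists_dom O e a he
  obtain ⟨d2, hd2, z2, hz2, e2⟩ := exists_dom O e b he
  obtain ⟨d, hd, h⟩ := exists_mult O (Finset.univ : Finset (Fin 4)) ![d1, d2, e, 1] (by
    intro i _
    fin_cases i
    · exact hd1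
    · exact hd2
    · exact he
    · exact one_ne_zero)
  obtain ⟨y1, hy1, f1⟩ := h 0 (Finset.mem_univ _)
  obtain ⟨y2, hy2, f2⟩ := h 1 (Finset.mem_univ _)
  obtain ⟨y3, hy3, f3⟩ := h 2 (Finset.mem_univ _)
  obtain ⟨y4, hy4, f4⟩ := h 3 (Finset.mem_univ _)
  have f1' : d = d1 * y1 := f1
  have f2' : d = d2 * y2 := f2
  have f3' : d = e * y3 := f3
  have f4' : d = y4 := by simpa using f4
  refine ⟨d, hd, fun a' b' ⟨x, hx, ha⟩ ⟨y, hy, hb⟩ => ?_⟩
  have hdO : d ∈ O := f4' ▸ hy4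
  have g1 : a * d = e * (z1 * y1) := by
    rw [f1', ← mul_assoc, e1, mul_assoc]
  have g2 : b * d = e * (z2 * y2) := by
    rw [f2', ← mul_assoc, e2, mul_assoc]
  refine ⟨z1 * y1 * y + z2 * y2 * x + y3 * x * (d * y), ?_, ?_⟩
  · exact O.add_mem _ _ (O.add_mem _ _ (O.mul_mem _ _ (O.mul_mem _ _ hz1 hy1) hy)
      (O.mul_mem _ _ (O.mul_mem _ _ hz2 hy2) hx))
      (O.mul_mem _ _ (O.mul_mem _ _ hy3 hx) (O.mul_mem _ _ hdO hy))
  · have ha' : a' = a + d * x := by rw [← ha]; ring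
    have hb' : b' = b + d * y := by rw [← hb]; ring
    have g3 : a' * b' - a * b = a * d * y + b * d * x + d * x * (d * y) := by
      rw [ha', hb']; ring
    rw [g3, g1, g2]
    have g4 : d * x * (d * y) = e * y3 * x * (d * y) := by
      rw [← f3']
    rw [g4]
    ring

theorem main : St_CONT := by
  intro L _ O σ _ F w
  induction F using MvPolynomial.induction_on with
  | C a =>
    intro e he
    refine ⟨1, one_ne_zero, fun w' _ => ?_⟩
    rw [MvPolynomial.eval_C, MvPolynomial.eval_C]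
    exact Near.refl _ _
  | add p q hp hq =>
    intro e he
    obtain ⟨d1, hd1, h1⟩ := hp e he
    obtain ⟨d2, hd2, h2⟩ := hq e he
    obtain ⟨d, hd, h⟩ := exists_common (O := O) (Finset.univ : Finset (Fin 2)) ![d1, d2] (by
      intro i _
      fin_cases i
      · exact hd1
      · exact hd2)
    refine ⟨d, hd, fun w' hw => ?_⟩
    rw [map_add, map_add]
    exact (h1 w' fun j => h 0 (Finset.mem_univ _) _ _ (hw j)).add
      (h2 w' fun j => h 1 (Finset.mem_univ _) _ _ (hw j))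
  | mul_X p j hp =>
    intro e he
    obtain ⟨d, hd, h⟩ := near_mul O e (MvPolynomial.eval w p) (w j) he
    obtain ⟨d1, hd1, h1⟩ := hp d hd
    obtain ⟨d', hd', h'⟩ := exists_common (O := O) (Finset.univ : Finset (Fin 2)) ![d1, d] (by
      intro i _
      fin_cases i
      · exact hd1
      · exact hd)
    refine ⟨d', hd', fun w' hw => ?_⟩
    rw [map_mul, map_mul, MvPolynomial.eval_X, MvPolynomial.eval_X]
    exact h _ _ (h1 w' fun j => h' 0 (Finset.mem_univ _) _ _ (hw j))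
      (h' 1 (Finset.mem_univ _) _ _ (hw j))

end Pool.Agent.Helper85.XF.CONT
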